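import Pool.Agent.TH829.SC.Outer

set_option autoImplicit false

/-!
Starshapedness of compact connected sets in `R^d` is decided by the clear visibility of `d + 1`
locally non-convex points at a time, in every dimension.
-/

namespace Pool.Agent.TH829.SC.ClearVisibility

open Set Metric

/-- `E` is starshaped: some point of `E` sees every point of `E`. -/
def Starshaped {d : ℕ} (E : Set (EuclideanSpace ℝ (Fin d))) : Prop :=
  ∃ y ∈ E, ∀ x ∈ E, segment ℝ x y ⊆ E

/-- `x` is a locally non-convex point of `E`: a boundary point for which `B_r(x) ∩ E` is not convex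
for every `r > 0`. -/
def LNC {d : ℕ} (E : Set (EuclideanSpace ℝ (Fin d))) (x : EuclideanSpace ℝ (Fin d)) : Prop :=
  x ∈ frontier E ∧ ∀ r : ℝ, 0 < r → ¬ Convex ℝ (ball x r ∩ E)

/-- `x` is clearly visible from `y`: for some `r > 0` the point `y` sees every point of
`B_r(x) ∩ E`. -/
def ClearlyVisible {d : ℕ} (E : Set (EuclideanSpace ℝ (Fin d))) (x y : EuclideanSpace ℝ (Fin d)) :
    Prop :=
  ∃ r : ℝ, 0 < r ∧ ∀ z ∈ ball x r ∩ E, segment ℝ z y ⊆ E

/-- Property `C_n`: any `n` locally non-convex points (not necessarily distinct) are all clearly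
visible from one point of `E`. -/
def PropC {d : ℕ} (n : ℕ) (E : Set (EuclideanSpace ℝ (Fin d))) : Prop :=
  ∀ x : Fin n → EuclideanSpace ℝ (Fin d), (∀ i, LNC E (x i)) →
    ∃ y ∈ E, ∀ i, ClearlyVisible E (x i) y

/-- In every dimension `d` a compact connected set is starshaped if and only if any `d + 1` of its
locally non-convex points are clearly visible from a common point of the set. -/
theorem result (d : ℕ) (E : Set (EuclideanSpace ℝ (Fin d))) (hE : IsCompact E)
    (hc : IsConnected E) : Starshaped E ↔ PropC (d + 1) E := by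
  constructor
  · rintro ⟨y, hy, h⟩ x _
    exact ⟨y, hy, fun i => ⟨1, one_pos, fun z hz => h z hz.2⟩⟩
  · intro h
    have key : ∀ x : Fin (d + 1) → EuclideanSpace ℝ (Fin d),
        (∀ i, x i ∈ Pool.Agent.TH829.SC.NC E) →
        ∃ y ∈ E, ∀ i, ∃ r : ℝ, 0 < r ∧ y ∈ Pool.Agent.TH829.SC.Vis E (x i) r := by
      intro x hx
      obtain ⟨y, hy, hv⟩ := h x (fun i => by
        obtain ⟨h1, h2⟩ := hx i
        refine ⟨?_, fun r hr hconv => h2 r hr (by rwa [inter_comm])⟩
        rw [hE.isClosed.frontier_eq]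
        refine ⟨h1, fun hint => ?_⟩
        obtain ⟨r, hr, hb⟩ := Metric.isOpen_iff.1 isOpen_interior _ hint
        apply h2 r hr
        rw [inter_eq_right.2 (hb.trans interior_subset)]
        exact convex_ball _ _)
      refine ⟨y, hy, fun i => ?_⟩
      obtain ⟨r, hr, hs⟩ := hv i
      exact ⟨r, hr, fun z hz => hs z ⟨hz.2, hz.1⟩⟩
    obtain ⟨p, hp, hs⟩ := Pool.Agent.TH829.SC.starshaped_of (finrank_euclideanSpace_fin) hE hc key
    refine ⟨p, hp, fun x hx => ?_⟩
    rw [segment_symm]
    exact hs x hx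

end Pool.Agent.TH829.SC.ClearVisibility
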