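import Mathlib

set_option autoImplicit false

/-! Local star-likeness toward a point and the triangle lemma (for MP_ad2f8c_co). -/

namespace Pool.Agent.TH829.SC

open Set Filter Topology Metric

variable {V : Type*} [NormedAddCommGroup V] [NormedSpace ℝ V]

/-- the points which see every point of `E` in the ball of radius `ρ` around `u` -/
def Vis (E : Set V) (u : V) (ρ : ℝ) : Set V := {y | ∀ z ∈ E ∩ ball u ρ, segment ℝ z y ⊆ E}

/-- `E` is convex near `u` -/
def TypeC (E : Set V) (u : V) : Prop := ∃ ρ : ℝ, 0 < ρ ∧ Convex ℝ (E ∩ ball u ρ)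

/-- `p` is in the closed convex hull of the points from which `u` is clearly visible with a
certain radius -/
def TypeS (E : Set V) (p u : V) : Prop :=
  ∃ ρ : ℝ, 0 < ρ ∧ p ∈ closure (convexHull ℝ (Vis E u ρ))

theorem mem_segment_add {z y : V} {t : ℝ} (h0 : 0 ≤ t) (h1 : t ≤ 1) :
    z + t • (y - z) ∈ segment ℝ z y := by
  rw [segment_eq_image']
  exact ⟨t, ⟨h0, h1⟩, rfl⟩

theorem exists_of_mem_segment {z y u : V} (h : u ∈ segment ℝ z y) :
    ∃ t : ℝ, 0 ≤ t ∧ t ≤ 1 ∧ u = z + t • (y - z) := by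
  rw [segment_eq_image'] at h
  obtain ⟨t, ⟨h0, h1⟩, h⟩ := h
  exact ⟨t, h0, h1, h.symm⟩

/-- the points toward which `E` is star-like inside the ball -/
def St (E : Set V) (u : V) (ρ : ℝ) : Set V :=
  {y | ∀ z ∈ E ∩ ball u ρ, ∀ t : ℝ, 0 ≤ t → t ≤ 1 → z + t • (y - z) ∈ ball u ρ →
    z + t • (y - z) ∈ E}

theorem Vis_subset_St (E : Set V) (u : V) (ρ : ℝ) : Vis E u ρ ⊆ St E u ρ := by
  intro y hy z hz t h0 h1 _
  exact hy z hz (mem_segment_add h0 h1)

theorem isClosed_St {E : Set V} (hE : IsClosed E) (u : V) (ρ : ℝ) : IsClosed (St E u ρ) := by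
  have : St E u ρ = ⋂ z ∈ E ∩ ball u ρ, ⋂ t ∈ Icc (0 : ℝ) 1,
      ({y | z + t • (y - z) ∈ (ball u ρ)ᶜ} ∪ {y | z + t • (y - z) ∈ E}) := by
    ext y
    simp only [St, mem_iInter, mem_union, mem_compl_iff, mem_ofPred_eq, mem_Icc]
    constructor
    · intro h z hz t ht
      by_cases hb : z + t • (y - z) ∈ ball u ρ
      · exact Or.inr (h z hz t ht.1 ht.2 hb)
      · exact Or.inl hb
    · intro h z hz t h0 h1 hb
      rcases h z hz t ⟨h0, h1⟩ with h | h
      · exact absurd hb h
      · exact h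
  rw [this]
  refine isClosed_biInter fun z _ => isClosed_biInter fun t _ => IsClosed.union ?_ ?_
  · exact isOpen_ball.isClosed_compl.preimage (by fun_prop)
  · exact hE.preimage (by fun_prop)

theorem convex_St {E : Set V} (hE : IsClosed E) (u : V) (ρ : ℝ) : Convex ℝ (St E u ρ) := by
  intro y₁ h₁ y₂ h₂ a b ha hb hab z hz t ht0 ht1 htB
  set y : V := a • y₁ + b • y₂ with hy
  -- local claim
  have loc : ∀ e ∈ E ∩ ball u ρ, ∀ᶠ σ : ℝ in 𝓝[>] 0, e + σ • (y - e) ∈ E := by
    intro e he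
    have c1 : ContinuousAt (fun σ : ℝ => e + (σ * a / (1 - σ * b)) • (y₁ - e)) 0 := by
      have : ContinuousAt (fun σ : ℝ => σ * a / (1 - σ * b)) 0 := by
        apply ContinuousAt.div
        · fun_prop
        · fun_prop
        · norm_num
      exact (this.smul continuousAt_const).const_add e
    have c2 : ContinuousAt (fun σ : ℝ => e + σ • (y - e)) 0 := by fun_prop
    have e1 : ∀ᶠ σ : ℝ in 𝓝 0, e + (σ * a / (1 - σ * b)) • (y₁ - e) ∈ ball u ρ := by
      apply c1.eventually_mem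
      simpa using isOpen_ball.mem_nhds he.2
    have e2 : ∀ᶠ σ : ℝ in 𝓝 0, e + σ • (y - e) ∈ ball u ρ := by
      apply c2.eventually_mem
      simpa using isOpen_ball.mem_nhds he.2
    have e3 : ∀ᶠ σ : ℝ in 𝓝 0, σ < 1 := eventually_lt_nhds one_pos
    have e4 : ∀ᶠ σ : ℝ in 𝓝[>] 0, 0 < σ := eventually_mem_nhdsWithin
    filter_upwards [nhdsWithin_le_nhds e1, nhdsWithin_le_nhds e2, nhdsWithin_le_nhds e3, e4]
      with σ h1 h2 h3 h4
    have hb1 : b ≤ 1 := by linarith
    have hσb : σ * b < 1 := by nlinarith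
    have hpos : 0 < 1 - σ * b := by linarith
    have hα0 : 0 ≤ σ * a / (1 - σ * b) := by positivity
    have hα1 : σ * a / (1 - σ * b) ≤ 1 := by
      rw [div_le_one hpos]
      nlinarith
    have hz' : e + (σ * a / (1 - σ * b)) • (y₁ - e) ∈ E := h₁ e he _ hα0 hα1 h1
    have key : e + σ • (y - e) = (e + (σ * a / (1 - σ * b)) • (y₁ - e)) +
        (σ * b) • (y₂ - (e + (σ * a / (1 - σ * b)) • (y₁ - e))) := by
      have hc : (1 - σ * b) * (σ * a / (1 - σ * b)) = σ * a := by
        field_simp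
      have ha' : a = 1 - b := by linarith
      have : (e + (σ * a / (1 - σ * b)) • (y₁ - e)) +
        (σ * b) • (y₂ - (e + (σ * a / (1 - σ * b)) • (y₁ - e)))
          = e + ((1 - σ * b) * (σ * a / (1 - σ * b))) • (y₁ - e) + (σ * b) • (y₂ - e) := by
        module
      rw [this, hc, hy, ha']
      module
    rw [key]
    refine h₂ _ ⟨hz', h1⟩ (σ * b) (by positivity) hσb.le ?_
    rw [← key]
    exact h2
  -- continuous induction
  let A : Set ℝ := {τ | z + τ • (y - z) ∈ E}
  have hA : IsClosed (A ∩ Icc 0 t) := by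
    apply IsClosed.inter _ isClosed_Icc
    exact hE.preimage (by fun_prop)
  have h0A : (0 : ℝ) ∈ A := by
    show z + (0 : ℝ) • (y - z) ∈ E
    simpa using hz.1
  have hstep : ∀ x ∈ A ∩ Ico 0 t, A ∈ 𝓝[>] x := by
    rintro x ⟨hxA, hx0, hxt⟩
    have hx1 : x < 1 := lt_of_lt_of_le hxt ht1
    have hxB : z + x • (y - z) ∈ ball u ρ := by
      have hc := convex_ball u ρ
      have h5 := hc.add_smul_sub_mem hz.2 htB (t := x / t)
        ⟨div_nonneg hx0 ht0, div_le_one_of_le₀ hxt.le ht0⟩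
      have ht : 0 < t := lt_of_le_of_lt hx0 hxt
      have : z + (x / t) • (z + t • (y - z) - z) = z + x • (y - z) := by
        rw [add_sub_cancel_left, smul_smul, div_mul_cancel₀ _ ht.ne']
      rwa [this] at h5
    have h6 := loc _ ⟨hxA, hxB⟩
    have hT : Tendsto (fun τ : ℝ => (τ - x) / (1 - x)) (𝓝[>] x) (𝓝[>] 0) := by
      rw [tendsto_nhdsWithin_iff]
      constructor
      · have : ContinuousAt (fun τ : ℝ => (τ - x) / (1 - x)) x := by
          apply ContinuousAt.div
          · fun_prop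
          · fun_prop
          · linarith
        have h7 := this.tendsto
        simp only [sub_self, zero_div] at h7
        exact h7.mono_left nhdsWithin_le_nhds
      · filter_upwards [self_mem_nhdsWithin] with τ hτ
        have hτ' : x < τ := hτ
        exact div_pos (sub_pos.2 hτ') (sub_pos.2 hx1)
    filter_upwards [hT.eventually h6] with τ hτ
    show z + τ • (y - z) ∈ E
    have hne : (1 - x) ≠ 0 := by linarith
    have : z + x • (y - z) + ((τ - x) / (1 - x)) • (y - (z + x • (y - z))) = z + τ • (y - z) := by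
      have e1 : y - (z + x • (y - z)) = (1 - x) • (y - z) := by module
      rw [e1, smul_smul, div_mul_cancel₀ _ hne]
      module
    rwa [this] at hτ
  have hfin := hA.Icc_subset_of_forall_mem_nhdsWithin h0A hstep
  exact hfin ⟨ht0, le_rfl⟩

/-- local star-likeness toward `p` -/
theorem star_of_mem {E : Set V} (hE : IsClosed E) {u p : V} {ρ : ℝ}
    (hp : p ∈ closure (convexHull ℝ (Vis E u ρ))) : p ∈ St E u ρ := by
  have h1 : convexHull ℝ (Vis E u ρ) ⊆ St E u ρ :=
    convexHull_min (Vis_subset_St E u ρ) (convex_St hE u ρ)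
  exact closure_minimal h1 (isClosed_St hE u ρ) hp

/-! ### Projective coordinates in the plane of `p`, `x`, `y` -/

/-- the point `p + (m(l) - p) / k`, `m(l) = x + l (y - x)` -/
noncomputable def P (p x y : V) (l k : ℝ) : V := p + k⁻¹ • (x + l • (y - x) - p)

theorem P_one (p x y : V) (l : ℝ) : P p x y l 1 = x + l • (y - x) := by
  unfold P
  simp

theorem P_chord (p x y : V) {l₁ l₂ k₁ k₂ a b : ℝ} (ha : 0 ≤ a) (hb : 0 ≤ b) (hab : a + b = 1)
    (hk₁ : 0 < k₁) (hk₂ : 0 < k₂) :
    P p x y (a * l₁ + b * l₂) (a * k₁ + b * k₂) ∈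
      segment ℝ (P p x y l₁ k₁) (P p x y l₂ k₂) := by
  have hk : 0 < a * k₁ + b * k₂ := by
    rcases eq_or_lt_of_le ha with h | h
    · have : b = 1 := by linarith
      rw [← h, this]
      simpa using hk₂
    · have := mul_pos h hk₁
      have := mul_nonneg hb hk₂.le
      linarith
  refine ⟨a * k₁ / (a * k₁ + b * k₂), b * k₂ / (a * k₁ + b * k₂), by positivity, by positivity,
    ?_, ?_⟩
  · field_simp
  · unfold P
    have h1 : (a * k₁ / (a * k₁ + b * k₂)) * k₁⁻¹ = a * (a * k₁ + b * k₂)⁻¹ := by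
      field_simp
    have h2 : (b * k₂ / (a * k₁ + b * k₂)) * k₂⁻¹ = b * (a * k₁ + b * k₂)⁻¹ := by
      field_simp
    have h3 : a * k₁ / (a * k₁ + b * k₂) + b * k₂ / (a * k₁ + b * k₂) = 1 := by
      field_simp
    have h4 : (a * k₁ / (a * k₁ + b * k₂)) • (p + k₁⁻¹ • (x + l₁ • (y - x) - p)) +
        (b * k₂ / (a * k₁ + b * k₂)) • (p + k₂⁻¹ • (x + l₂ • (y - x) - p))
        = (a * k₁ / (a * k₁ + b * k₂) + b * k₂ / (a * k₁ + b * k₂)) • p
          + ((a * k₁ / (a * k₁ + b * k₂)) * k₁⁻¹) • (x + l₁ • (y - x) - p)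
          + ((b * k₂ / (a * k₁ + b * k₂)) * k₂⁻¹) • (x + l₂ • (y - x) - p) := by
      module
    rw [h4, h1, h2, h3]
    have hb' : b = 1 - a := by linarith
    rw [hb']
    module

theorem P_between (p x y : V) (l : ℝ) {k₁ k k₂ : ℝ} (h0 : 0 < k₁) (h1 : k₁ ≤ k) (h2 : k ≤ k₂) :
    P p x y l k ∈ segment ℝ (P p x y l k₁) (P p x y l k₂) := by
  rcases eq_or_lt_of_le (h1.trans h2) with h | h
  · have e1 : k = k₁ := le_antisymm (h ▸ h2) h1
    rw [e1]
    exact left_mem_segment ℝ _ _
  · have hd : 0 < k₂ - k₁ := by linarith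
    have := P_chord p x y (l₁ := l) (l₂ := l) (k₁ := k₁) (k₂ := k₂)
      (a := (k₂ - k) / (k₂ - k₁)) (b := (k - k₁) / (k₂ - k₁))
      (div_nonneg (by linarith) hd.le) (div_nonneg (by linarith) hd.le)
      (by field_simp; ring) h0 (by linarith)
    have e1 : (k₂ - k) / (k₂ - k₁) * l + (k - k₁) / (k₂ - k₁) * l = l := by
      field_simp
      ring
    have e2 : (k₂ - k) / (k₂ - k₁) * k₁ + (k - k₁) / (k₂ - k₁) * k₂ = k := by
      field_simp
      ring
    rwa [e1, e2] at this

/-- moving toward `p` -/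
theorem P_toward (p x y : V) (l : ℝ) {k₁ k₂ : ℝ} (h0 : 0 < k₁) (h1 : 0 < k₂) :
    P p x y l k₂ = P p x y l k₁ + (1 - k₁ / k₂) • (p - P p x y l k₁) := by
  unfold P
  have h2 : (k₁ / k₂) * k₁⁻¹ = k₂⁻¹ := by
    field_simp
  have : p + k₁⁻¹ • (x + l • (y - x) - p) + (1 - k₁ / k₂) • (p - (p + k₁⁻¹ • (x + l • (y - x) - p)))
      = p + ((k₁ / k₂) * k₁⁻¹) • (x + l • (y - x) - p) := by
    module
  rw [this, h2]

theorem continuousAt_P (p x y : V) {f g : ℝ × ℝ → ℝ} {z : ℝ × ℝ} (hf : ContinuousAt f z)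
    (hg : ContinuousAt g z) (h : g z ≠ 0) : ContinuousAt (fun w => P p x y (f w) (g w)) z := by
  unfold P
  exact ((hg.inv₀ h).smul (((hf.smul continuousAt_const).const_add x).sub continuousAt_const)).const_add p


/-- the strictly convex barrier -/
noncomputable def bar (K ε l : ℝ) : ℝ := (1 - l) * K + l - ε * l * (1 - l)

/-- the sweeping family -/
noncomputable def cc (K ε θ l : ℝ) : ℝ := max 1 (θ * bar K ε l)

theorem cc_pos (K ε θ l : ℝ) : 0 < cc K ε θ l := lt_of_lt_of_le one_pos (le_max_left _ _)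

theorem one_le_cc (K ε θ l : ℝ) : 1 ≤ cc K ε θ l := le_max_left _ _

theorem bar_ge_one {K ε l : ℝ} (hε : ε ≤ K - 1) (h0 : 0 ≤ l) (h1 : l ≤ 1) (hε0 : 0 ≤ ε) :
    1 ≤ bar K ε l := by
  unfold bar
  have : 0 ≤ (1 - l) * (K - 1 - ε * l) := by
    apply mul_nonneg (by linarith)
    nlinarith
  nlinarith

theorem bar_le {K ε l : ℝ} (hK : 1 ≤ K) (hε0 : 0 ≤ ε) (h0 : 0 ≤ l) (h1 : l ≤ 1) :
    bar K ε l ≤ K := by
  unfold bar
  have : 0 ≤ ε * l * (1 - l) := by
    apply mul_nonneg (mul_nonneg hε0 h0) (by linarith)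
  nlinarith

theorem bar_mid (K ε l η : ℝ) :
    (bar K ε (l - η) + bar K ε (l + η)) / 2 = bar K ε l + ε * η ^ 2 := by
  unfold bar
  ring

theorem continuous_cc (K ε : ℝ) : Continuous (fun w : ℝ × ℝ => cc K ε w.1 w.2) := by
  unfold cc bar
  fun_prop

theorem continuous_Pcc (p x y : V) (K ε : ℝ) :
    Continuous (fun w : ℝ × ℝ => P p x y w.2 (cc K ε w.1 w.2)) := by
  rw [continuous_iff_continuousAt]
  intro z
  exact continuousAt_P p x y continuousAt_snd (continuous_cc K ε).continuousAt (cc_pos _ _ _ _).ne'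

/-- the local step of the sweeping argument -/
theorem sweep_local {E : Set V} (hE : IsClosed E) {p x y : V}
    (hT : ∀ u ∈ E, TypeC E u ∨ TypeS E p u) {K ε : ℝ} (hK : 1 < K) (hε : 0 < ε) (hεK : ε ≤ K - 1)
    (hxe : ∀ k : ℝ, 1 ≤ k → k ≤ K → P p x y 0 k ∈ E)
    (hxy : ∀ l : ℝ, 0 ≤ l → l ≤ 1 → P p x y l 1 ∈ E)
    {θ : ℝ} (hθ0 : K⁻¹ ≤ θ) (hθ1 : θ < 1)
    (hθ : ∀ l : ℝ, 0 ≤ l → l ≤ 1 → P p x y l (cc K ε θ l) ∈ E) {l₀ : ℝ} (hl0 : 0 ≤ l₀)
    (hl1 : l₀ ≤ 1) :
    ∀ᶠ w : ℝ × ℝ in 𝓝 (θ, l₀), θ ≤ w.1 → 0 ≤ w.2 → w.2 ≤ 1 →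
      P p x y w.2 (cc K ε w.1 w.2) ∈ E := by
  have hKpos : 0 < K := by linarith
  have hθpos : 0 < θ := lt_of_lt_of_le (inv_pos.2 hKpos) hθ0
  have hbpos : ∀ l : ℝ, 0 ≤ l → l ≤ 1 → 1 ≤ bar K ε l := fun l h0 h1 =>
    bar_ge_one hεK h0 h1 hε.le
  set u : V := P p x y l₀ (cc K ε θ l₀) with hu
  have huE : u ∈ E := hθ l₀ hl0 hl1
  -- continuity facts
  have cont1 : ContinuousAt (fun w : ℝ × ℝ => P p x y w.2 (cc K ε w.1 w.2)) (θ, l₀) :=
    (continuous_Pcc p x y K ε).continuousAt
  have cont2 : ContinuousAt (fun w : ℝ × ℝ => P p x y w.2 (cc K ε θ w.2)) (θ, l₀) := by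
    have : Continuous (fun w : ℝ × ℝ => P p x y w.2 (cc K ε θ w.2)) :=
      (continuous_Pcc p x y K ε).comp (continuous_const.prodMk continuous_snd)
    exact this.continuousAt
  -- monotonicity
  have mono : ∀ w : ℝ × ℝ, θ ≤ w.1 → 0 ≤ w.2 → w.2 ≤ 1 → cc K ε θ w.2 ≤ cc K ε w.1 w.2 := by
    intro w h1 h2 h3
    exact max_le_max le_rfl (mul_le_mul_of_nonneg_right h1 (by linarith [hbpos w.2 h2 h3]))
  rcases hT u huE with ⟨ρ, hρ, hconv⟩ | ⟨ρ, hρ, hp⟩
  · -- convex type
    by_cases hcase : θ * bar K ε l₀ < 1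
    · have hc : ContinuousAt (fun w : ℝ × ℝ => w.1 * bar K ε w.2) (θ, l₀) := by
        unfold bar
        fun_prop
      filter_upwards [hc.eventually_lt continuousAt_const hcase] with w hw _ h2 h3
      have : cc K ε w.1 w.2 = 1 := max_eq_left hw.le
      rw [this]
      exact hxy _ h2 h3
    · have hcase : 1 ≤ θ * bar K ε l₀ := not_lt.1 hcase
      have hcc : cc K ε θ l₀ = θ * bar K ε l₀ := max_eq_right hcase
      have hl1' : l₀ < 1 := by
        rcases eq_or_lt_of_le hl1 with h | h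
        · exfalso
          rw [h] at hcase
          unfold bar at hcase
          norm_num at hcase
          linarith
        · exact h
      -- the nodes
      obtain ⟨l₁, l₂, k₁, k₂, h12, hl₁, hl₂, hk₁, hk₂, hP₁, hP₂, hnb, hgt⟩ :
          ∃ l₁ l₂ k₁ k₂ : ℝ, l₁ < l₂ ∧ l₁ ≤ l₀ ∧ l₀ < l₂ ∧ 0 < k₁ ∧ 0 < k₂ ∧
            P p x y l₁ k₁ ∈ E ∩ ball u ρ ∧ P p x y l₂ k₂ ∈ E ∩ ball u ρ ∧
            (l₁ < l₀ ∨ l₁ = 0) ∧
            cc K ε θ l₀ < ((l₂ - l₀) * k₁ + (l₀ - l₁) * k₂) / (l₂ - l₁) := by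
        -- continuity in l
        have cl : ContinuousAt (fun l : ℝ => P p x y l (cc K ε θ l)) l₀ := by
          have : Continuous (fun l : ℝ => P p x y l (cc K ε θ l)) :=
            (continuous_Pcc p x y K ε).comp (continuous_const.prodMk continuous_id)
          exact this.continuousAt
        have ev : ∀ᶠ l in 𝓝 l₀, P p x y l (cc K ε θ l) ∈ ball u ρ :=
          cl.eventually_mem (isOpen_ball.mem_nhds (mem_ball_self hρ))
        obtain ⟨δ, hδ, hball⟩ := Metric.eventually_nhds_iff.1 ev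
        rcases eq_or_lt_of_le hl0 with h0 | h0
        · -- l₀ = 0
          subst h0
          have hlt : cc K ε θ 0 < K := by
            rw [hcc]
            unfold bar
            nlinarith
          have hge : 1 ≤ cc K ε θ 0 := one_le_cc _ _ _ _
          have ck : ContinuousAt (fun k : ℝ => P p x y 0 k) (cc K ε θ 0) := by
            have := continuousAt_P p x y (f := fun _ => 0) (g := fun w => w.1)
              (z := (cc K ε θ 0, 0)) continuousAt_const continuousAt_fst
              (by exact (cc_pos _ _ _ _).ne')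
            exact this.comp (f := fun k : ℝ => (k, (0 : ℝ))) (by fun_prop)
          have ev2 : ∀ᶠ k in 𝓝 (cc K ε θ 0), P p x y 0 k ∈ ball u ρ :=
            ck.eventually_mem (isOpen_ball.mem_nhds (mem_ball_self hρ))
          obtain ⟨δ₂, hδ₂, hball₂⟩ := Metric.eventually_nhds_iff.1 ev2
          set k₁ : ℝ := min K (cc K ε θ 0 + δ₂ / 2) with hk₁
          have hk₁gt : cc K ε θ 0 < k₁ := lt_min hlt (by linarith)
          have hk₁K : k₁ ≤ K := min_le_left _ _
          have hk₁d : k₁ ≤ cc K ε θ 0 + δ₂ / 2 := min_le_right _ _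
          set η : ℝ := min (δ / 2) 1 with hη
          have hηpos : 0 < η := lt_min (by linarith) one_pos
          have hη1 : η ≤ 1 := min_le_right _ _
          have hηδ : η ≤ δ / 2 := min_le_left _ _
          refine ⟨0, η, k₁, cc K ε θ η, hηpos, le_rfl, hηpos, by linarith, cc_pos _ _ _ _,
            ⟨hxe k₁ (by linarith) hk₁K, ?_⟩, ⟨hθ η hηpos.le hη1, ?_⟩, Or.inr rfl, ?_⟩
          · apply hball₂
            rw [Real.dist_eq, abs_of_pos (by linarith)]
            linarith
          · apply hball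
            rw [Real.dist_eq, sub_zero, abs_of_pos hηpos]
            linarith
          · rw [sub_zero, sub_zero, zero_mul, add_zero, mul_comm, mul_div_assoc,
              div_self hηpos.ne', mul_one]
            exact hk₁gt
        · -- 0 < l₀ < 1
          set η : ℝ := min (δ / 2) (min l₀ (1 - l₀)) with hη
          have hηpos : 0 < η := lt_min (by linarith) (lt_min h0 (by linarith))
          have hη1 : η ≤ δ / 2 := min_le_left _ _
          have hη2 : η ≤ l₀ := (min_le_right _ _).trans (min_le_left _ _)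
          have hη3 : η ≤ 1 - l₀ := (min_le_right _ _).trans (min_le_right _ _)
          refine ⟨l₀ - η, l₀ + η, cc K ε θ (l₀ - η), cc K ε θ (l₀ + η), by linarith, by linarith,
            by linarith, cc_pos _ _ _ _, cc_pos _ _ _ _,
            ⟨hθ _ (by linarith) (by linarith), ?_⟩, ⟨hθ _ (by linarith) (by linarith), ?_⟩,
            Or.inl (by linarith), ?_⟩
          · apply hball
            rw [Real.dist_eq]
            have : l₀ - η - l₀ = -η := by ring
            rw [this, abs_neg, abs_of_pos hηpos]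
            linarith
          · apply hball
            rw [Real.dist_eq]
            have : l₀ + η - l₀ = η := by ring
            rw [this, abs_of_pos hηpos]
            linarith
          · have e1 : ((l₀ + η - l₀) * cc K ε θ (l₀ - η) + (l₀ - (l₀ - η)) * cc K ε θ (l₀ + η)) /
                (l₀ + η - (l₀ - η)) = (cc K ε θ (l₀ - η) + cc K ε θ (l₀ + η)) / 2 := by
              have : l₀ + η - (l₀ - η) = 2 * η := by ring
              rw [this]
              field_simp
              ring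
            rw [e1, hcc]
            have h3 : θ * bar K ε (l₀ - η) ≤ cc K ε θ (l₀ - η) := le_max_right _ _
            have h4 : θ * bar K ε (l₀ + η) ≤ cc K ε θ (l₀ + η) := le_max_right _ _
            have h5 := bar_mid K ε l₀ η
            have h6 : 0 < θ * (ε * η ^ 2) := by positivity
            have h7 : θ * ((bar K ε (l₀ - η) + bar K ε (l₀ + η)) / 2)
                = θ * bar K ε l₀ + θ * (ε * η ^ 2) := by
              rw [h5]
              ring
            linarith
      have hd : 0 < l₂ - l₁ := by linarith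
      -- the chord
      set ch : ℝ → ℝ := fun l => ((l₂ - l) * k₁ + (l - l₁) * k₂) / (l₂ - l₁) with hch
      have chcont : Continuous ch := by
        rw [hch]
        fun_prop
      have evA : ∀ᶠ w : ℝ × ℝ in 𝓝 (θ, l₀), cc K ε w.1 w.2 < ch w.2 := by
        have c3 : ContinuousAt (fun w : ℝ × ℝ => cc K ε w.1 w.2) (θ, l₀) :=
          (continuous_cc K ε).continuousAt
        have c4 : ContinuousAt (fun w : ℝ × ℝ => ch w.2) (θ, l₀) :=
          (chcont.comp continuous_snd).continuousAt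
        exact c3.eventually_lt c4 hgt
      have evB : ∀ᶠ w : ℝ × ℝ in 𝓝 (θ, l₀), P p x y w.2 (cc K ε θ w.2) ∈ ball u ρ :=
        cont2.eventually_mem (isOpen_ball.mem_nhds (mem_ball_self hρ))
      have evC : ∀ᶠ w : ℝ × ℝ in 𝓝 (θ, l₀), w.2 < l₂ :=
        continuousAt_snd.eventually_lt continuousAt_const hl₂
      have evD : ∀ᶠ w : ℝ × ℝ in 𝓝 (θ, l₀), 0 ≤ w.2 → l₁ ≤ w.2 := by
        rcases hnb with h | h
        · have : ∀ᶠ w : ℝ × ℝ in 𝓝 (θ, l₀), l₁ < w.2 :=
            continuousAt_const.eventually_lt continuousAt_snd h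
          filter_upwards [this] with w hw _
          exact hw.le
        · filter_upwards with w hw
          rw [h]
          exact hw
      filter_upwards [evA, evB, evC, evD] with w hA hB hC hD h1 h2 h3
      have hD := hD h2
      -- chord point
      have hchord : P p x y w.2 (ch w.2) ∈ E ∩ ball u ρ := by
        have h5 := P_chord p x y (l₁ := l₁) (l₂ := l₂) (k₁ := k₁) (k₂ := k₂)
          (a := (l₂ - w.2) / (l₂ - l₁)) (b := (w.2 - l₁) / (l₂ - l₁))
          (div_nonneg (by linarith) hd.le) (div_nonneg (by linarith) hd.le)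
          (by field_simp; ring) hk₁ hk₂
        have e1 : (l₂ - w.2) / (l₂ - l₁) * l₁ + (w.2 - l₁) / (l₂ - l₁) * l₂ = w.2 := by
          field_simp
          ring
        have e2 : (l₂ - w.2) / (l₂ - l₁) * k₁ + (w.2 - l₁) / (l₂ - l₁) * k₂ = ch w.2 := by
          rw [hch]
          field_simp
        rw [e1, e2] at h5
        exact hconv.segment_subset hP₁ hP₂ h5
      have hlow : P p x y w.2 (cc K ε θ w.2) ∈ E ∩ ball u ρ := ⟨hθ _ h2 h3, hB⟩
      have h6 := P_between p x y w.2 (cc_pos K ε θ w.2) (mono w h1 h2 h3) hA.le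
      exact (hconv.segment_subset hlow hchord h6).1
  · -- star type
    have hstar := star_of_mem hE hp
    have e1 : ∀ᶠ w : ℝ × ℝ in 𝓝 (θ, l₀), P p x y w.2 (cc K ε w.1 w.2) ∈ ball u ρ :=
      cont1.eventually_mem (isOpen_ball.mem_nhds (mem_ball_self hρ))
    have e2 : ∀ᶠ w : ℝ × ℝ in 𝓝 (θ, l₀), P p x y w.2 (cc K ε θ w.2) ∈ ball u ρ :=
      cont2.eventually_mem (isOpen_ball.mem_nhds (mem_ball_self hρ))
    filter_upwards [e1, e2] with w hw1 hw2 h1 h2 h3
    have hm := mono w h1 h2 h3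
    have h4 := P_toward p x y w.2 (cc_pos K ε θ w.2) (cc_pos K ε w.1 w.2)
    rw [h4]
    refine hstar _ ⟨hθ _ h2 h3, hw2⟩ _ ?_ ?_ ?_
    · rw [sub_nonneg, div_le_one (cc_pos _ _ _ _)]
      exact hm
    · have : 0 ≤ cc K ε θ w.2 / cc K ε w.1 w.2 := div_nonneg (cc_pos _ _ _ _).le (cc_pos _ _ _ _).le
      linarith
    · rw [← h4]
      exact hw1

theorem sweep {E : Set V} (hE : IsClosed E) {p x y : V}
    (hT : ∀ u ∈ E, TypeC E u ∨ TypeS E p u) {K ε : ℝ} (hK : 1 < K) (hε : 0 < ε) (hεK : ε ≤ K - 1)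
    (hxe : ∀ k : ℝ, 1 ≤ k → k ≤ K → P p x y 0 k ∈ E)
    (hxy : ∀ l : ℝ, 0 ≤ l → l ≤ 1 → P p x y l 1 ∈ E) {l : ℝ} (h0 : 0 ≤ l) (h1 : l ≤ 1) :
    P p x y l (bar K ε l) ∈ E := by
  have hKpos : 0 < K := by linarith
  let A : Set ℝ := {θ | ∀ l : ℝ, 0 ≤ l → l ≤ 1 → P p x y l (cc K ε θ l) ∈ E}
  have hAc : IsClosed A := by
    have : A = ⋂ l ∈ Icc (0 : ℝ) 1, {θ | P p x y l (cc K ε θ l) ∈ E} := by
      ext θ
      simp [A]
    rw [this]
    refine isClosed_biInter fun l _ => hE.preimage ?_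
    exact (continuous_Pcc p x y K ε).comp (continuous_id.prodMk continuous_const)
  have hinit : K⁻¹ ∈ A := by
    intro l h0 h1
    have h2 := bar_le hK.le hε.le h0 h1
    have h3 : K⁻¹ * bar K ε l ≤ 1 := by
      rw [inv_mul_le_iff₀ hKpos, mul_one]
      exact h2
    have : cc K ε K⁻¹ l = 1 := max_eq_left h3
    rw [this]
    exact hxy l h0 h1
  have hstep : ∀ θ ∈ A ∩ Ico K⁻¹ 1, A ∈ 𝓝[>] θ := by
    rintro θ ⟨hθA, hθ0, hθ1⟩
    have hcomp := isCompact_Icc (a := (0 : ℝ)) (b := 1)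
    have h2 : ∀ᶠ θ' in 𝓝 θ, ∀ l ∈ Icc (0 : ℝ) 1, θ ≤ θ' → 0 ≤ l → l ≤ 1 →
        P p x y l (cc K ε θ' l) ∈ E := by
      apply hcomp.eventually_forall_of_forall_eventually
        (P := fun θ' l => θ ≤ θ' → 0 ≤ l → l ≤ 1 → P p x y l (cc K ε θ' l) ∈ E)
      rintro l₀ ⟨hl0, hl1⟩
      exact sweep_local hE hT hK hε hεK hxe hxy hθ0 hθ1 hθA hl0 hl1
    have h4 : ∀ᶠ θ' in 𝓝[>] θ, θ' ∈ A := by
      filter_upwards [nhdsWithin_le_nhds h2, self_mem_nhdsWithin] with θ' h5 h6 l h7 h8
      exact h5 l ⟨h7, h8⟩ (le_of_lt h6) h7 h8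
    exact h4
  have hfin := (hAc.inter isClosed_Icc).Icc_subset_of_forall_mem_nhdsWithin hinit hstep
  have h1A : (1 : ℝ) ∈ A := hfin ⟨inv_le_one_of_one_le₀ hK.le, le_rfl⟩
  have h2 := h1A l h0 h1
  have h3 : cc K ε 1 l = bar K ε l := by
    unfold cc
    rw [one_mul]
    exact max_eq_right (bar_ge_one hεK h0 h1 hε.le)
  rwa [h3] at h2


/-- **Triangle lemma**, point `e` different from `p`. -/
theorem triangle' {E : Set V} (hE : IsClosed E) {p x y : V}
    (hT : ∀ u ∈ E, TypeC E u ∨ TypeS E p u) (hxy : segment ℝ x y ⊆ E) {s : ℝ} (hs0 : 0 ≤ s)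
    (hs1 : s < 1) (hxe : ∀ t : ℝ, 0 ≤ t → t ≤ s → x + t • (p - x) ∈ E) :
    segment ℝ (x + s • (p - x)) y ⊆ E := by
  rcases eq_or_lt_of_le hs0 with h | hspos
  · rw [← h, zero_smul, add_zero]
    exact hxy
  have h1s : 0 < 1 - s := by linarith
  set K : ℝ := (1 - s)⁻¹ with hKdef
  have hK : 1 < K := (one_lt_inv₀ h1s).2 (by linarith)
  have hKpos : 0 < K := by linarith
  have hPe : ∀ k : ℝ, 1 ≤ k → k ≤ K → P p x y 0 k ∈ E := by
    intro k h1 h2
    have hk : 0 < k := by linarith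
    have e1 : P p x y 0 k = x + (1 - k⁻¹) • (p - x) := by
      unfold P
      module
    rw [e1]
    apply hxe
    · have := inv_le_one_of_one_le₀ h1
      linarith
    · have h3 : K⁻¹ ≤ k⁻¹ := inv_anti₀ hk h2
      rw [hKdef, inv_inv] at h3
      linarith
  have hPxy : ∀ l : ℝ, 0 ≤ l → l ≤ 1 → P p x y l 1 ∈ E := by
    intro l h0 h1
    rw [P_one]
    exact hxy (mem_segment_add h0 h1)
  -- limit of the barriers
  have hlim : ∀ l : ℝ, 0 ≤ l → l ≤ 1 → P p x y l ((1 - l) * K + l) ∈ E := by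
    intro l h0 h1
    have hpos : (1 - l) * K + l ≠ 0 := by
      have : 0 < (1 - l) * K + l := by nlinarith
      exact this.ne'
    have hc : Tendsto (fun ε : ℝ => P p x y l (bar K ε l)) (𝓝[>] 0)
        (𝓝 (P p x y l ((1 - l) * K + l))) := by
      have h2 : ContinuousAt (fun ε : ℝ => bar K ε l) 0 := by
        unfold bar
        fun_prop
      have h3 : bar K 0 l = (1 - l) * K + l := by
        unfold bar
        ring
      have h4 : ContinuousAt (fun ε : ℝ => P p x y l (bar K ε l)) 0 := by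
        unfold P
        refine ContinuousAt.add continuousAt_const (ContinuousAt.smul (h2.inv₀ ?_)
          continuousAt_const)
        rw [h3]
        exact hpos
      have h5 := h4.tendsto
      rw [h3] at h5
      exact h5.mono_left nhdsWithin_le_nhds
    refine hE.mem_of_tendsto hc ?_
    have e1 : ∀ᶠ ε : ℝ in 𝓝[>] 0, ε < K - 1 :=
      nhdsWithin_le_nhds (eventually_lt_nhds (by linarith))
    filter_upwards [e1, self_mem_nhdsWithin] with ε h2 h3
    exact sweep hE hT hK h3 h2.le hPe hPxy h0 h1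
  intro v hv
  obtain ⟨c, hc0, hc1, rfl⟩ := exists_of_mem_segment hv
  -- parameters
  have hden : 0 < c * K + (1 - c) := by nlinarith
  set k : ℝ := K / (c * K + (1 - c)) with hk
  have hkpos : 0 < k := div_pos hKpos hden
  have hb0 : 0 ≤ c * k := mul_nonneg hc0 hkpos.le
  have ha0 : 0 ≤ (1 - c) * k / K := by
    have : 0 ≤ 1 - c := by linarith
    positivity
  have hab : (1 - c) * k / K + c * k = 1 := by
    rw [hk]
    field_simp
    ring
  have hbl : c * k ≤ 1 := by linarith
  have hkeq : (1 - c * k) * K + c * k = k := by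
    have h1 : 1 - c * k = (1 - c) * k / K := by linarith
    rw [h1]
    field_simp
    ring
  have hfin := hlim (c * k) hb0 hbl
  rw [hkeq] at hfin
  have e1 : P p x y (c * k) k = x + s • (p - x) + c • (y - (x + s • (p - x))) := by
    unfold P
    have h1 : k⁻¹ * (c * k) = c := by field_simp
    have h2 : k⁻¹ = c + (1 - c) * (1 - s) := by
      rw [hk, inv_div, hKdef]
      field_simp
    have : p + k⁻¹ • (x + (c * k) • (y - x) - p) = p + k⁻¹ • (x - p) + (k⁻¹ * (c * k)) • (y - x) := by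
      module
    rw [this, h1, h2]
    module
  rwa [e1] at hfin

/-- **Triangle lemma** -/
theorem triangle {E : Set V} (hE : IsClosed E) {p x y : V}
    (hT : ∀ u ∈ E, TypeC E u ∨ TypeS E p u) (hxy : segment ℝ x y ⊆ E) {s : ℝ} (hs0 : 0 ≤ s)
    (hs1 : s ≤ 1) (hxe : ∀ t : ℝ, 0 ≤ t → t ≤ s → x + t • (p - x) ∈ E) :
    segment ℝ (x + s • (p - x)) y ⊆ E := by
  rcases eq_or_lt_of_le hs1 with h | h
  · subst h
    intro v hv
    obtain ⟨c, hc0, hc1, rfl⟩ := exists_of_mem_segment hv
    have hc : Tendsto (fun s : ℝ => x + s • (p - x) + c • (y - (x + s • (p - x)))) (𝓝[<] 1)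
        (𝓝 (x + (1 : ℝ) • (p - x) + c • (y - (x + (1 : ℝ) • (p - x))))) := by
      have : Continuous (fun s : ℝ => x + s • (p - x) + c • (y - (x + s • (p - x)))) := by
        fun_prop
      exact (this.tendsto 1).mono_left nhdsWithin_le_nhds
    refine hE.mem_of_tendsto hc ?_
    have e1 : ∀ᶠ s : ℝ in 𝓝[<] 1, 0 ≤ s := nhdsWithin_le_nhds (eventually_ge_nhds one_pos)
    filter_upwards [e1, self_mem_nhdsWithin] with s h2 h3
    have h3' : s < 1 := h3
    exact triangle' hE hT hxy h2 h3' (fun t h4 h5 => hxe t h4 (by linarith)) (mem_segment_add hc0 hc1)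
  · exact triangle' hE hT hxy hs0 h hxe

/-- points near a point of the second type see `p` -/
theorem sees_of_typeS {E : Set V} (hE : IsClosed E) (hbd : Bornology.IsBounded E) {p : V}
    (hT : ∀ u ∈ E, TypeC E u ∨ TypeS E p u) {u : V} {ρ : ℝ}
    (hp : p ∈ closure (convexHull ℝ (Vis E u ρ))) {z : V} (hz : z ∈ E ∩ ball u ρ) :
    segment ℝ z p ⊆ E := by
  let A : Set ℝ := {τ | ∀ c ∈ Icc (0 : ℝ) 1, z + (c * τ) • (p - z) ∈ E}
  have hAc : IsClosed A := by
    have : A = ⋂ c ∈ Icc (0 : ℝ) 1, {τ | z + (c * τ) • (p - z) ∈ E} := by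
      ext θ
      simp [A]
    rw [this]
    exact isClosed_biInter fun c _ => hE.preimage (by fun_prop)
  have h0A : (0 : ℝ) ∈ A := by
    intro c _
    simpa using hz.1
  have hstep : ∀ τ ∈ A ∩ Ico 0 1, A ∈ 𝓝[>] τ := by
    rintro τ ⟨hτA, hτ0, hτ1⟩
    -- all points up to τ
    have hupto : ∀ t : ℝ, 0 ≤ t → t ≤ τ → z + t • (p - z) ∈ E := by
      intro t h0 h1
      rcases eq_or_lt_of_le hτ0 with h | h
      · have : t = 0 := by linarith
        rw [this]
        simpa using hz.1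
      · have h2 := hτA (t / τ) ⟨div_nonneg h0 hτ0, div_le_one_of_le₀ h1 hτ0⟩
        rwa [div_mul_cancel₀ _ h.ne'] at h2
    set e : V := z + τ • (p - z) with he
    have heE : e ∈ E := hupto τ hτ0 le_rfl
    -- it suffices to move a bit further
    suffices hmove : ∃ δ : ℝ, 0 < δ ∧ ∀ σ : ℝ, 0 ≤ σ → σ ≤ δ → e + σ • (p - e) ∈ E by
      obtain ⟨δ, hδ, hδE⟩ := hmove
      have h1τ : 0 < 1 - τ := by linarith
      have hpe : p - e = (1 - τ) • (p - z) := by
        rw [he]
        module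
      have ev : ∀ᶠ τ' in 𝓝[>] τ, τ' < τ + δ * (1 - τ) :=
        nhdsWithin_le_nhds (eventually_lt_nhds (by nlinarith))
      filter_upwards [ev, self_mem_nhdsWithin] with τ' h1 h2 c hc
      have h2' : τ < τ' := h2
      by_cases hct : c * τ' ≤ τ
      · exact hupto _ (mul_nonneg hc.1 (by linarith)) hct
      · have hct : τ < c * τ' := not_le.1 hct
        have h3 : c * τ' ≤ τ' := by nlinarith [hc.2]
        have h4 := hδE ((c * τ' - τ) / (1 - τ)) (div_nonneg (by linarith) h1τ.le)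
          (by rw [div_le_iff₀ h1τ]; linarith)
        rw [hpe, smul_smul, div_mul_cancel₀ _ h1τ.ne', he] at h4
        have : z + τ • (p - z) + (c * τ' - τ) • (p - z) = z + (c * τ') • (p - z) := by module
        rwa [this] at h4
    rcases hT e heE with ⟨r, hr, hconv⟩ | ⟨r, hr, hpr⟩
    · -- convex type
      obtain ⟨M, hM⟩ := hbd.subset_closedBall e
      have hMpos : 0 < |M| + 1 := by positivity
      set δ : ℝ := r / (2 * (|M| + 1)) with hδ
      have hδpos : 0 < δ := by positivity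
      set δ' : ℝ := min δ 1 with hδ'
      have hδ'pos : 0 < δ' := lt_min hδpos one_pos
      have hδ'1 : δ' ≤ 1 := min_le_right _ _
      have hδ'δ : δ' ≤ δ := min_le_left _ _
      have hbox : ball e r ∩ closedBall e (r / 2) = closedBall e (r / 2) := by
        apply inter_eq_right.2
        exact closedBall_subset_ball (by linarith)
      have hKc : Convex ℝ (E ∩ closedBall e (r / 2)) := by
        have : E ∩ closedBall e (r / 2) = (E ∩ ball e r) ∩ closedBall e (r / 2) := by
          rw [inter_assoc, hbox]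
        rw [this]
        exact hconv.inter (convex_closedBall _ _)
      let W : Set V := {y | e + δ' • (y - e) ∈ E ∩ closedBall e (r / 2)}
      have hWclosed : IsClosed W := (hE.inter isClosed_closedBall).preimage (by fun_prop)
      have hWconv : Convex ℝ W := by
        intro y₁ h₁ y₂ h₂ a b ha hb hab
        have h3 := hKc h₁ h₂ ha hb hab
        show e + δ' • (a • y₁ + b • y₂ - e) ∈ E ∩ closedBall e (r / 2)
        have : a • (e + δ' • (y₁ - e)) + b • (e + δ' • (y₂ - e))
            = e + δ' • (a • y₁ + b • y₂ - e) := by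
          have hb' : b = 1 - a := by linarith
          rw [hb']
          module
        rwa [this] at h3
      have hVW : Vis E u ρ ⊆ W := by
        intro y hy
        have hzy : segment ℝ z y ⊆ E := hy z hz
        have h3 := triangle hE hT hzy hτ0 hτ1.le hupto
        have hyE : y ∈ E := hzy (right_mem_segment ℝ z y)
        refine ⟨h3 (mem_segment_add hδ'pos.le hδ'1), ?_⟩
        rw [mem_closedBall, dist_eq_norm, add_sub_cancel_left, norm_smul, Real.norm_eq_abs,
          abs_of_pos hδ'pos, ← dist_eq_norm]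
        have h4 : dist y e ≤ M := hM hyE
        have h5 : dist y e ≤ |M| + 1 := by
          have := le_abs_self M
          linarith
        calc δ' * dist y e ≤ δ * (|M| + 1) :=
              mul_le_mul hδ'δ h5 dist_nonneg hδpos.le
          _ = r / 2 := by
              rw [hδ]
              field_simp
      have hpW : p ∈ W := closure_minimal (convexHull_min hVW hWconv) hWclosed hp
      refine ⟨δ', hδ'pos, fun σ h0 h1 => ?_⟩
      have heK : e ∈ E ∩ closedBall e (r / 2) := ⟨heE, mem_closedBall_self (by linarith)⟩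
      have h6 := hKc.segment_subset heK hpW
      have h7 : e + σ • (p - e) ∈ segment ℝ e (e + δ' • (p - e)) := by
        have h8 := mem_segment_add (z := e) (y := e + δ' • (p - e)) (t := σ / δ')
          (div_nonneg h0 hδ'pos.le) (div_le_one_of_le₀ h1 hδ'pos.le)
        rwa [add_sub_cancel_left, smul_smul, div_mul_cancel₀ _ hδ'pos.ne'] at h8
      exact (h6 h7).1
    · -- star type
      have hstar := star_of_mem hE hpr
      have hc : ContinuousAt (fun σ : ℝ => e + σ • (p - e)) 0 := by fun_prop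
      have ev : ∀ᶠ σ : ℝ in 𝓝 0, e + σ • (p - e) ∈ ball e r := by
        apply hc.eventually_mem
        simpa using ball_mem_nhds e hr
      obtain ⟨δ, hδ, hball⟩ := Metric.eventually_nhds_iff.1 ev
      refine ⟨min (δ / 2) 1, lt_min (by linarith) one_pos, fun σ h0 h1 => ?_⟩
      refine hstar e ⟨heE, mem_ball_self hr⟩ σ h0 (h1.trans (min_le_right _ _)) ?_
      apply hball
      rw [Real.dist_eq, sub_zero, abs_of_nonneg h0]
      have := h1.trans (min_le_left _ _)
      linarith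
  have hfin := (hAc.inter isClosed_Icc).Icc_subset_of_forall_mem_nhdsWithin h0A hstep
  have h1A : (1 : ℝ) ∈ A := hfin ⟨zero_le_one, le_rfl⟩
  intro v hv
  obtain ⟨c, hc0, hc1, rfl⟩ := exists_of_mem_segment hv
  have := h1A c ⟨hc0, hc1⟩
  rwa [mul_one] at this

/-- **Main lemma**: if `E` is compact, connected, and near each of its points convex or of the
second type with respect to `p`, then `E` is starshaped with respect to `p`, provided `p ∈ E` or
some point is of the second type. -/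
theorem main {E : Set V} (hE : IsCompact E) (hc : IsPreconnected E) {p : V}
    (hT : ∀ u ∈ E, TypeC E u ∨ TypeS E p u) (hp : p ∈ E ∨ ∃ u ∈ E, TypeS E p u) :
    p ∈ E ∧ ∀ z ∈ E, segment ℝ p z ⊆ E := by
  have hcl := hE.isClosed
  have hbd := hE.isBounded
  have hpE : p ∈ E := by
    rcases hp with h | ⟨u, hu, ρ, hρ, h⟩
    · exact h
    · exact sees_of_typeS hcl hbd hT h ⟨hu, mem_ball_self hρ⟩ (right_mem_segment ℝ u p)
  refine ⟨hpE, ?_⟩
  haveI : PreconnectedSpace E := isPreconnected_iff_preconnectedSpace.1 hc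
  let W : Set E := {z | segment ℝ (z : V) p ⊆ E}
  have hWclosed : IsClosed W := by
    have : W = ⋂ c ∈ Icc (0 : ℝ) 1, {z : E | (z : V) + c • (p - z) ∈ E} := by
      ext z
      simp only [W, mem_iInter, mem_ofPred_eq]
      constructor
      · intro h c hc
        exact h (mem_segment_add hc.1 hc.2)
      · intro h v hv
        obtain ⟨c, hc0, hc1, rfl⟩ := exists_of_mem_segment hv
        exact h c ⟨hc0, hc1⟩
    rw [this]
    refine isClosed_biInter fun c _ => hcl.preimage ?_
    fun_prop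
  have hWopen : IsOpen W := by
    rw [isOpen_iff_mem_nhds]
    rintro ⟨z, hz⟩ hzW
    have hzW' : segment ℝ z p ⊆ E := hzW
    have hnb : ∃ ρ : ℝ, 0 < ρ ∧ ∀ z' ∈ E ∩ ball z ρ, segment ℝ z' p ⊆ E := by
      rcases hT z hz with ⟨ρ, hρ, hconv⟩ | ⟨ρ, hρ, h⟩
      · refine ⟨ρ, hρ, fun z' hz' => ?_⟩
        have h1 : segment ℝ z z' ⊆ E :=
          (hconv.segment_subset ⟨hz, mem_ball_self hρ⟩ hz').trans inter_subset_left
        have h2 := triangle hcl hT h1 zero_le_one le_rfl
          (fun t h0 h1 => hzW' (mem_segment_add h0 h1))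
        rw [one_smul, add_sub_cancel] at h2
        rw [segment_symm]
        exact h2
      · exact ⟨ρ, hρ, fun z' hz' => sees_of_typeS hcl hbd hT h hz'⟩
    obtain ⟨ρ, hρ, h⟩ := hnb
    rw [Metric.mem_nhds_iff]
    refine ⟨ρ, hρ, ?_⟩
    rintro ⟨z', hz'⟩ hd
    exact h z' ⟨hz', hd⟩
  have hne : W.Nonempty := ⟨⟨p, hpE⟩, by
    show segment ℝ p p ⊆ E
    rw [segment_same]
    exact singleton_subset_iff.2 hpE⟩
  have huniv : W = univ := IsClopen.eq_univ ⟨hWclosed, hWopen⟩ hne
  intro z hz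
  have : (⟨z, hz⟩ : E) ∈ W := by
    rw [huniv]
    trivial
  rw [segment_symm]
  exact this

end Pool.Agent.TH829.SC
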