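import Pool.Agent.TH829.SC.Core

set_option autoImplicit false

/-! Uniform radius of clear visibility and Helly's theorem (for MP_ad2f8c_co). -/

namespace Pool.Agent.TH829.SC

open Set Filter Topology Metric

section normed

variable {V : Type*} [NormedAddCommGroup V] [NormedSpace ℝ V]

theorem Vis_mono {E : Set V} {u u' : V} {r r' : ℝ} (h : ball u' r' ⊆ ball u r) :
    Vis E u r ⊆ Vis E u' r' := fun _ hy z hz => hy z ⟨hz.1, h hz.2⟩

/-- the points near which `E` is not convex -/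
def NC (E : Set V) : Set V := {x ∈ E | ∀ r : ℝ, 0 < r → ¬ Convex ℝ (E ∩ ball x r)}

theorem isClosed_NC {E : Set V} (hE : IsClosed E) : IsClosed (NC E) := by
  have : NC E = E ∩ {x | ∀ r : ℝ, 0 < r → ¬ Convex ℝ (E ∩ ball x r)} := rfl
  rw [this]
  apply hE.inter
  rw [← isOpen_compl_iff, Metric.isOpen_iff]
  intro x hx
  simp only [mem_compl_iff, mem_ofPred_eq, not_forall, not_not, exists_prop] at hx
  obtain ⟨r, hr, hc⟩ := hx
  refine ⟨r / 2, by linarith, fun x' hx' => ?_⟩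
  simp only [mem_compl_iff, mem_ofPred_eq, not_forall, not_not, exists_prop]
  refine ⟨r / 2, by linarith, ?_⟩
  have hsub : ball x' (r / 2) ⊆ ball x r := by
    apply ball_subset_ball'
    have : dist x' x < r / 2 := hx'
    linarith
  have : E ∩ ball x' (r / 2) = (E ∩ ball x r) ∩ ball x' (r / 2) := by
    rw [inter_assoc, inter_eq_right.2 hsub]
  rw [this]
  exact hc.inter (convex_ball _ _)

/-- uniform radius -/
theorem uniform_radius {E : Set V} (hE : IsCompact E) {n : ℕ}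
    (h : ∀ x : Fin n → V, (∀ i, x i ∈ NC E) → ∃ y ∈ E, ∀ i, ∃ r : ℝ, 0 < r ∧ y ∈ Vis E (x i) r) :
    ∃ r : ℝ, 0 < r ∧ ∀ x : Fin n → V, (∀ i, x i ∈ NC E) → ∃ y ∈ E, ∀ i, y ∈ Vis E (x i) r := by
  have hQ : IsCompact (NC E) := hE.of_isClosed_subset (isClosed_NC hE.isClosed) (fun _ h => h.1)
  have hK : IsCompact (Set.pi univ (fun _ : Fin n => NC E)) := isCompact_univ_pi fun _ => hQ
  have key : ∃ r : ℝ, 0 < r ∧ ∀ x ∈ Set.pi univ (fun _ : Fin n => NC E),
      ∃ y ∈ E, ∀ i, y ∈ Vis E (x i) r := by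
    refine hK.induction_on (p := fun s => ∃ r : ℝ, 0 < r ∧ ∀ x ∈ s, ∃ y ∈ E, ∀ i, y ∈ Vis E (x i) r)
      ⟨1, one_pos, fun x hx => absurd hx (notMem_empty x)⟩ ?_ ?_ ?_
    · rintro s t hst ⟨r, hr, h⟩
      exact ⟨r, hr, fun x hx => h x (hst hx)⟩
    · rintro s t ⟨r, hr, h⟩ ⟨r', hr', h'⟩
      refine ⟨min r r', lt_min hr hr', fun x hx => ?_⟩
      rcases hx with hx | hx
      · obtain ⟨y, hy, h1⟩ := h x hx
        exact ⟨y, hy, fun i => Vis_mono (ball_subset_ball (min_le_left _ _)) (h1 i)⟩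
      · obtain ⟨y, hy, h1⟩ := h' x hx
        exact ⟨y, hy, fun i => Vis_mono (ball_subset_ball (min_le_right _ _)) (h1 i)⟩
    · intro x hx
      obtain ⟨y, hy, h1⟩ := h x (fun i => hx i (mem_univ i))
      choose r hr hv using h1
      -- a common radius
      obtain ⟨ρ, hρ, hρr⟩ : ∃ ρ : ℝ, 0 < ρ ∧ ∀ i, ρ ≤ r i := by
        rcases Nat.eq_zero_or_pos n with h0 | h0
        · subst h0
          exact ⟨1, one_pos, fun i => i.elim0⟩
        · haveI : Nonempty (Fin n) := ⟨⟨0, h0⟩⟩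
          obtain ⟨i₀, hi₀⟩ := Finite.exists_min r
          exact ⟨r i₀, hr i₀, hi₀⟩
      refine ⟨{x' | ∀ i, dist (x' i) (x i) < ρ / 2}, ?_, ρ / 2, by linarith, ?_⟩
      · apply mem_nhdsWithin_of_mem_nhds
        have : {x' : Fin n → V | ∀ i, dist (x' i) (x i) < ρ / 2}
            = ⋂ i, {x' : Fin n → V | dist (x' i) (x i) < ρ / 2} := by
          ext x'
          simp
        rw [this]
        apply IsOpen.mem_nhds
        · apply isOpen_iInter_of_finite
          intro i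
          exact isOpen_lt (by fun_prop) continuous_const
        · simp only [mem_iInter, mem_ofPred_eq, dist_self]
          intro i
          linarith
      · intro x' hx'
        refine ⟨y, hy, fun i => Vis_mono ?_ (hv i)⟩
        apply ball_subset_ball'
        have h2 := hx' i
        have h3 := hρr i
        linarith
  obtain ⟨r, hr, h⟩ := key
  exact ⟨r, hr, fun x hx => h x (fun i _ => hx i)⟩

theorem typeC_of_not_NC {E : Set V} {u : V} (hu : u ∈ E) (h : u ∉ NC E) : TypeC E u := by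
  by_contra hc
  apply h
  refine ⟨hu, fun r hr hconv => hc ⟨r, hr, hconv⟩⟩

end normed

/-- **The theorem**, for a finite dimensional space of dimension `d`. -/
theorem starshaped_of {V : Type*} [NormedAddCommGroup V] [NormedSpace ℝ V]
    [FiniteDimensional ℝ V] {d : ℕ} (hd : Module.finrank ℝ V = d) {E : Set V} (hE : IsCompact E)
    (hc : IsConnected E)
    (h : ∀ x : Fin (d + 1) → V, (∀ i, x i ∈ NC E) →
      ∃ y ∈ E, ∀ i, ∃ r : ℝ, 0 < r ∧ y ∈ Vis E (x i) r) :
    ∃ p ∈ E, ∀ z ∈ E, segment ℝ p z ⊆ E := by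
  classical
  rcases (NC E).eq_empty_or_nonempty with hQ | ⟨w₀, hw₀⟩
  · obtain ⟨p, hp⟩ := hc.nonempty
    obtain ⟨h1, h2⟩ := main hE hc.isPreconnected (p := p)
      (fun u hu => Or.inl (typeC_of_not_NC hu (by rw [hQ]; exact notMem_empty u))) (Or.inl hp)
    exact ⟨p, h1, h2⟩
  obtain ⟨r, hr, hun⟩ := uniform_radius hE h
  let F : NC E → Set V := fun w => closure (convexHull ℝ (Vis E (w : V) r))
  have hVisE : ∀ w : NC E, Vis E (w : V) r ⊆ E := by
    intro w y hy
    exact hy w ⟨w.2.1, mem_ball_self hr⟩ (right_mem_segment ℝ _ _)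
  have hFconv : ∀ w, Convex ℝ (F w) := fun w => (convex_convexHull ℝ _).closure
  have hFcomp : ∀ w, IsCompact (F w) := by
    intro w
    apply Metric.isCompact_of_isClosed_isBounded isClosed_closure
    apply Bornology.IsBounded.closure
    rw [isBounded_convexHull]
    exact hE.isBounded.subset (hVisE w)
  have hinter : ∀ I : Finset (NC E), I.card ≤ Module.finrank ℝ V + 1 → (⋂ i ∈ I, F i).Nonempty := by
    intro I hI
    rw [hd] at hI
    let e := I.equivFin
    let x : Fin (d + 1) → V := fun j => if hj : (j : ℕ) < I.card then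
      ((e.symm ⟨j, hj⟩ : I) : NC E) else w₀
    have hx : ∀ j, x j ∈ NC E := by
      intro j
      simp only [x]
      split_ifs with hj
      · exact ((e.symm ⟨j, hj⟩ : I) : NC E).2
      · exact hw₀
    obtain ⟨y, hy, hyv⟩ := hun x hx
    refine ⟨y, ?_⟩
    simp only [mem_iInter]
    intro i hi
    have hlt : ((e ⟨i, hi⟩ : Fin I.card) : ℕ) < d + 1 := lt_of_lt_of_le (e ⟨i, hi⟩).2 hI
    have h1 := hyv ⟨(e ⟨i, hi⟩ : Fin I.card), hlt⟩
    have h2 : x ⟨(e ⟨i, hi⟩ : Fin I.card), hlt⟩ = (i : V) := by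
      simp only [x]
      rw [dif_pos (e ⟨i, hi⟩).2]
      simp
    rw [h2] at h1
    exact subset_closure (subset_convexHull ℝ _ h1)
  obtain ⟨p, hp⟩ := Convex.helly_theorem_compact' (𝕜 := ℝ) hFconv hFcomp hinter
  rw [mem_iInter] at hp
  obtain ⟨h1, h2⟩ := main hE hc.isPreconnected (p := p)
    (fun u hu => by
      by_cases hN : u ∈ NC E
      · exact Or.inr ⟨r, hr, hp ⟨u, hN⟩⟩
      · exact Or.inl (typeC_of_not_NC hu hN))
    (Or.inr ⟨w₀, hw₀.1, r, hr, hp ⟨w₀, hw₀⟩⟩)
  exact ⟨p, h1, h2⟩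

end Pool.Agent.TH829.SC
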